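import Pool.Agent.Y89.TW.Stm
import Pool.Agent.Y814.TX.IDEALE

/-!
Job TW-MAX3+MAX2 (helper37): maximality in the ranks `3` and `2` modulo `4`. Uses the files of
helper998 (rank `1` modulo `4`), helper814 (separation of monomials), helper259 and helper165.
-/

set_option autoImplicit false

open Matrix Finset

namespace Pool.Agent.Y37.TW

open Pool.Agent.Y89.TS Pool.Agent.Y998.TS Pool.Agent.Y89.TW

section
variable {N : Type} [Fintype N] [DecidableEq N] {n : ℕ} {Γ : Fin n → Matrix N N ℂ}
  {τ : Matrix N N ℂ →ₗ[ℂ] Matrix N N ℂ} {L : Submodule ℂ (Matrix N N ℂ)}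

theorem mon_of (hΓ : Clf Γ) : Mon Γ := by
  obtain ⟨m1, m2, m3, m4⟩ := Pool.Agent.Y259.TS.t_mono N n Γ hΓ
  exact ⟨hΓ.sq, m1, m2, m3, m4⟩

/-- the elements of `L` are combinations of monomials whose sizes are `2` modulo `4` -/
theorem coef [Nonempty N] (hΓ : Clf Γ) (hn : 2 ≤ n) (hB : Btw Γ τ L) {a : Matrix N N ℂ}
    (ha : a ∈ L) : ∃ c : Finset (Fin n) → ℂ, (∀ s, ¬ Even s.card → c s = 0) ∧
      (∀ s, c s ≠ 0 → s.card % 4 = 2) ∧ a = ∑ s, c s • mono Γ s := by
  obtain ⟨c, hc, rfl⟩ := exists_coef
    (Pool.Agent.Y165.TS.t_comm Pool.Agent.Y259.TS.t_mono N n Γ hΓ a (hB.cm a ha))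
  exact ⟨c, hc, skew_coef (mon_of hΓ) hn hB.anti hB.two hc (hB.sk _ ha), rfl⟩

theorem lie_of (hB : Btw Γ τ L) : Lie Γ L := ⟨hB.br, hB.pr⟩

theorem all_of (hΓ : Clf Γ) (hB : Btw Γ τ L) {s : Finset (Fin n)} (hs : mono Γ s ∈ L)
    (hs2 : s.card % 4 = 2) : All Γ L s.card := by
  intro t ht
  refine (lie_of hB).deg (mon_of hΓ) _ s t le_rfl ht.symm ?_ hs
  rw [Nat.even_iff]
  omega

/-- from one size to all -/
theorem all_small (hΓ : Clf Γ) (hB : Btw Γ τ L) {k : ℕ} (hk : k % 4 = 2) (hk6 : 6 ≤ k)
    (hkn : k + 3 ≤ n) (h1 : All Γ L k) : ∀ m : ℕ, 4 * m + 3 ≤ n → All Γ L (4 * m + 2) := by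
  have hL := lie_of hB
  have h := mon_of hΓ
  have h6 : All Γ L 6 := by
    have h2 := hL.step h (x := k - 3) (y := 3) (z := 3)
      (by rw [Nat.odd_iff]; omega) (by decide) (by decide) (by omega)
      (by rw [show k - 3 + 3 = k by omega]; exact h1)
      (by rw [show k - 3 + 3 = k by omega]; exact h1)
    exact h2
  intro m
  induction m with
  | zero =>
    intro _ s hs
    obtain ⟨a, b, hab, rfl⟩ := Finset.card_eq_two.1 (by simpa using hs)
    exact hL.pair_mem h hab
  | succ m ih =>
    intro hm
    have h2 := ih (by omega)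
    have h3 := hL.step h (x := 1) (y := 5) (z := 4 * m + 1) (by decide) (by decide)
      (by rw [Nat.odd_iff]; omega) (by omega) h6
      (by rw [show 1 + (4 * m + 1) = 4 * m + 2 by omega]; exact h2)
    rw [show 5 + (4 * m + 1) = 4 * (m + 1) + 2 by omega] at h3
    exact h3

/-- the monomials of size two -/
theorem two_mem (hΓ : Clf Γ) {t : Finset (Fin n)} (ht : t.card = 2) :
    mono Γ t ∈ Submodule.span ℂ (prs Γ) := by
  obtain ⟨i, j, hij, rfl⟩ := Finset.card_eq_two.1 ht
  rcases (mon_of hΓ).pair hij with h6 | h6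
  · rw [← h6]
    exact Submodule.subset_span ⟨i, j, hij, rfl⟩
  · have h7 : mono Γ {i, j} = -(Γ i * Γ j) := by rw [h6, neg_neg]
    rw [h7]
    exact Submodule.neg_mem _ (Submodule.subset_span ⟨i, j, hij, rfl⟩)

end

theorem t_max3 : S_max3 := by
  intro N _ _ n Γ hΓ hn4 hn7 τ L hB
  rcases isEmpty_or_nonempty N with hN | hN
  · left
    intro a _
    have : a = 0 := by
      ext i j
      exact hN.elim i
    rw [this]
    exact Submodule.zero_mem _
  · have hL := lie_of hB
    have hM := mon_of hΓ
    have hodd : Odd n := by rw [Nat.odd_iff]; omega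
    by_cases hdeg : ∃ s : Finset (Fin n), mono Γ s ∈ L ∧ s.card % 4 = 2 ∧ 6 ≤ s.card
    · right
      obtain ⟨s, hs, hs4, hs6⟩ := hdeg
      have hsn : s.card ≤ n := by
        have := Finset.card_le_univ s
        rwa [Fintype.card_fin] at this
      have hAll := all_of hΓ hB hs hs4
      by_cases hk : s.card = n - 1
      · intro t ht
        exact hAll t (by rw [ht, hk])
      · intro t ht
        exact all_small hΓ hB hs4 hs6 (by omega) hAll (n / 4) (by omega) t (by omega)
    · left
      push Not at hdeg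
      intro a ha
      obtain ⟨c, hc, hc4, rfl⟩ := coef hΓ (by omega) hB ha
      refine Submodule.sum_mem _ fun t _ => ?_
      by_cases hct : c t = 0
      · rw [hct, zero_smul]; exact Submodule.zero_mem _
      · apply Submodule.smul_mem
        have h3 := hL.supp hM hodd _ c hc le_rfl ha t hct
        have h4 := hc4 t hct
        have h5 := hdeg t h3 h4
        exact two_mem hΓ (by omega)

theorem t_max2 : S_max2 := by
  intro N _ _ n Γ hΓ hn4 hn6 τ L hB
  rcases isEmpty_or_nonempty N with hN | hN
  · left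
    intro a _
    have : a = 0 := by
      ext i j
      exact hN.elim i
    rw [this]
    exact Submodule.zero_mem _
  · have hL := lie_of hB
    have hM := mon_of hΓ
    by_cases hdeg : ∃ s : Finset (Fin n), mono Γ s ∈ L ∧ s.card % 4 = 2 ∧ 6 ≤ s.card ∧ s.card < n
    · right
      obtain ⟨s, hs, hs4, hs6, hsn⟩ := hdeg
      have hAll := all_of hΓ hB hs hs4
      refine ⟨by omega, fun t ht htn => ?_⟩
      exact all_small hΓ hB hs4 hs6 (by omega) hAll (t.card / 4) (by omega) t (by omega)
    · left
      push Not at hdeg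
      intro a ha
      obtain ⟨c, hc, hc4, rfl⟩ := coef hΓ (by omega) hB ha
      refine Submodule.sum_mem _ fun t _ => ?_
      by_cases hct : c t = 0
      · rw [hct, zero_smul]; exact Submodule.zero_mem _
      · apply Submodule.smul_mem
        have h4 := hc4 t hct
        have htn : t.card ≤ n := by
          have := Finset.card_le_univ t
          rwa [Fintype.card_fin] at this
        have hcc : c tᶜ = 0 := by
          by_contra h3
          have h4' := hc4 tᶜ h3
          have h5 := Finset.card_compl t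
          rw [Fintype.card_fin] at h5
          omega
        have h3 := Pool.Agent.Y814.TX.suppK2 hM (by omega)
          (fun i j hij a ha => hB.br _ (hB.pr i j hij) a ha) _ c le_rfl ha t hct
        rw [hcc, zero_smul, add_zero] at h3
        have h3' : mono Γ t ∈ L := by
          have h6 := L.smul_mem (c t)⁻¹ h3
          rwa [smul_smul, inv_mul_cancel₀ hct, one_smul] at h6
        by_cases hn : t.card < n
        · have h5 := hdeg t h3' h4
          exact Submodule.span_mono Set.subset_union_left (two_mem hΓ (by omega))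
        · have h6 : t = univ := by
            apply Finset.eq_univ_of_card
            rw [Fintype.card_fin]
            omega
          rw [h6]
          exact Submodule.subset_span (Or.inr rfl)

end Pool.Agent.Y37.TW
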